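import Pool.Agent.Helper162.Arc.PA

set_option autoImplicit false

open Set Topology

namespace Pool.Agent.Results.MP_c2648d_gt.ThreeToOne

/-- A subcontinuum of a (metric) space: a nonempty compact connected subset. -/
def IsSubcontinuum {X : Type} [TopologicalSpace X] (K : Set X) : Prop :=
  K.Nonempty ∧ IsCompact K ∧ IsConnected K

/-- `K` is decomposable: it is the union of two subcontinua, both different from `K`. -/
def IsDecomposable {X : Type} [TopologicalSpace X] (K : Set X) : Prop :=
  ∃ A B : Set X, IsSubcontinuum A ∧ IsSubcontinuum B ∧ A ≠ K ∧ B ≠ K ∧ A ∪ B = K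

/-- Every subcontinuum of `X` is indecomposable. -/
def HereditarilyIndecomposable (X : Type) [TopologicalSpace X] : Prop :=
  ∀ K : Set X, IsSubcontinuum K → ¬ IsDecomposable K

/-- Every nondegenerate subcontinuum of `Y` is decomposable. -/
def HereditarilyDecomposable (Y : Type) [TopologicalSpace Y] : Prop :=
  ∀ K : Set Y, IsSubcontinuum K → K.Nontrivial → IsDecomposable K

/-- There are a nondegenerate hereditarily indecomposable (metric) continuum `X`, a nondegenerate
hereditarily decomposable (metric) continuum `Y` and a continuous surjection `f : X → Y` all of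
whose fibres are finite, in fact have at most three points. -/
theorem result :
    ∃ (X Y : Type) (_ : MetricSpace X) (_ : MetricSpace Y) (f : X → Y),
      CompactSpace X ∧ ConnectedSpace X ∧ Nontrivial X ∧ HereditarilyIndecomposable X ∧
      CompactSpace Y ∧ ConnectedSpace Y ∧ Nontrivial Y ∧ HereditarilyDecomposable Y ∧
      Continuous f ∧ Function.Surjective f ∧
      ∀ y : Y, (f ⁻¹' {y}).Finite ∧ (f ⁻¹' {y}).ncard ≤ 3 := by
  classical
  obtain ⟨u, hu⟩ := Pool.Agent.Helper162.Arc.pa_generic
  obtain ⟨Y, tY, cY, t2Y, f, v, hf, hfs, hv, hvf, hrel⟩ :=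
    Pool.Agent.Helper162.Arc.exists_quotient u.continuous
  have h2 : SecondCountableTopology Y := Pool.Agent.Helper162.Arc.secondCountable_image hf hfs
  have hm : TopologicalSpace.MetrizableSpace Y :=
    TopologicalSpace.metrizableSpace_of_t3_secondCountable Y
  -- fibres have no four distinct points
  have hfour : ∀ x : Fin 4 → Pool.Agent.Helper162.Arc.PA, Function.Injective x →
      ¬ ∀ i, f (x 0) = f (x i) := fun x hx h => hu x hx fun i => (hrel _ _).1 (h i)
  have hfin : ∀ y : Y, (f ⁻¹' {y}).Finite ∧ (f ⁻¹' {y}).ncard ≤ 3 := by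
    intro y
    have key : ∀ s : Finset Pool.Agent.Helper162.Arc.PA, (s : Set _) ⊆ f ⁻¹' {y} → s.card ≤ 3 := by
      intro s hs
      by_contra hcon
      obtain ⟨t, hts, htc⟩ := Finset.exists_subset_card_eq (show 4 ≤ s.card by omega)
      let e := t.equivFinOfCardEq htc
      refine hfour (fun i => (e.symm i : Pool.Agent.Helper162.Arc.PA)) ?_ ?_
      · intro i j hij
        exact e.symm.injective (Subtype.ext hij)
      · intro i
        have h3 : ∀ i, f (e.symm i : Pool.Agent.Helper162.Arc.PA) = y := fun i =>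
          hs (hts (e.symm i).2)
        rw [h3, h3]
    have hfi : (f ⁻¹' {y}).Finite := by
      by_contra hinf
      obtain ⟨s, hs, hsc⟩ := Set.Infinite.exists_subset_card_eq hinf 4
      have := key s hs
      omega
    refine ⟨hfi, ?_⟩
    rw [Set.ncard_eq_toFinset_card _ hfi]
    exact key _ (by simp)
  refine ⟨Pool.Agent.Helper162.Arc.PA, Y,
    TopologicalSpace.metrizableSpaceMetric Pool.Agent.Helper162.Arc.PA,
    TopologicalSpace.metrizableSpaceMetric Y, f, inferInstance, inferInstance, inferInstance, ?_,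
    cY, ?_, ?_, ?_, hf, hfs, hfin⟩
  · rintro K ⟨-, hK1, hK2⟩ ⟨A, B, ⟨-, hA⟩, ⟨-, hB⟩, hAK, hBK, hAB⟩
    exact Pool.Agent.Helper162.Arc.pa_hi ⟨hK1, hK2⟩ ⟨A, B, hA, hB, hAB ▸ subset_union_left,
      hAB ▸ subset_union_right, hAK, hBK, hAB⟩
  · have h1 : IsPreconnected (f '' univ) := isPreconnected_univ.image f hf.continuousOn
    rw [image_univ, hfs.range_eq] at h1
    exact { toPreconnectedSpace := ⟨h1⟩, toNonempty := ⟨f (Classical.arbitrary _)⟩ }
  · by_contra hnt
    rw [not_nontrivial_iff_subsingleton] at hnt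
    have hall : ∀ a b, f a = f b := fun a b => Subsingleton.elim _ _
    have hinf : (univ : Set Pool.Agent.Helper162.Arc.PA).Infinite := by
      apply IsPreconnected.infinite_of_nontrivial isPreconnected_univ
      exact Set.nontrivial_univ
    obtain ⟨a⟩ : Nonempty Pool.Agent.Helper162.Arc.PA := inferInstance
    apply hinf
    have := (hfin (f a)).1
    refine this.subset fun b _ => ?_
    exact hall b a
  · rintro K ⟨hK0, hK1, hK2⟩ hKn
    obtain ⟨A, B, hA, hB, -, -, hAK, hBK, hAB⟩ :=
      Pool.Agent.Helper162.Arc.tree_hd hf hfs u.continuous hv hvf hrel hK1.isClosed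
        hK2.isPreconnected hKn
    exact ⟨A, B, ⟨hA.2.nonempty, hA⟩, ⟨hB.2.nonempty, hB⟩, hAK, hBK, hAB⟩

end Pool.Agent.Results.MP_c2648d_gt.ThreeToOne
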